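import Pool.Agent.Work.MP_b5407d_lp.Interface

set_option autoImplicit false
open MeasureTheory Real Filter Topology
open scoped ContDiff

namespace Pool.Agent.Work.LPBM.helper69

/-- `G0` is zero for nonpositive arguments -/
theorem G0_nonpos {s : ℝ} (hs : s ≤ 0) : G0 s = 0 := by
  unfold G0; rw [if_pos hs]

theorem continuous_G0 (hSW0 : Stmt_SW0) : Continuous G0 :=
  continuous_iff_continuousAt.2 fun s => (hSW0.1 s).continuousAt

theorem continuous_W (hSW0 : Stmt_SW0) {n : ℕ} {ι : Type} [Fintype ι] (k : ℝ) (θ : ι → E n)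
    (h : ι → ℝ) (l : E n) : Continuous (W k θ h l) := by
  have hG := continuous_G0 hSW0
  unfold W wt Vpot Upot
  refine Real.continuous_exp.comp (Continuous.neg (Continuous.sub ?_ ?_))
  · exact continuous_finsetSum _ fun i _ =>
      hG.comp (continuous_const.mul ((continuous_const.inner continuous_id).sub continuous_const))
  · exact continuous_const.inner continuous_id

theorem isClosed_Pset {n : ℕ} {ι : Type} (θ : ι → E n) (h : ι → ℝ) : IsClosed (Pset θ h) := by
  unfold Pset
  rw [Set.ofPred_forall]
  exact isClosed_iInter fun i => isClosed_le (continuous_const.inner continuous_id) continuous_const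

/-- hard wall limit -/
theorem stmt_LIM (hSW0 : Stmt_SW0) (hINT0 : Stmt_INT0) : Stmt_LIM := by
  intro n ι _ θ h hSp hh hθ
  obtain ⟨B, hBi, hB⟩ := hINT0 n ι θ hSp (∑ i, |h i|) 0
  have hmeas : MeasurableSet (Pset θ h) := (isClosed_Pset θ h).measurableSet
  have hlim : (volume (Pset θ h)).toReal = ∫ x : E n, (Pset θ h).indicator (fun _ => (1 : ℝ)) x := by
    rw [integral_indicator hmeas]; simp [Measure.real]
  rw [hlim]
  have hcont := fun k : ℝ => continuous_W hSW0 k θ h (0 : E n)
  refine tendsto_integral_filter_of_dominated_convergence B ?_ ?_ hBi ?_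
  · exact Eventually.of_forall fun k => (hcont k).aestronglyMeasurable
  · filter_upwards [eventually_ge_atTop 1] with k hk
    refine Eventually.of_forall fun x => ?_
    have h1 : (1 : ℝ) ≤ (k : ℝ) := by exact_mod_cast hk
    have hW : 0 ≤ W (k : ℝ) θ h (0 : E n) x := (Real.exp_pos _).le
    rw [Real.norm_eq_abs, abs_of_nonneg hW]
    exact hB k h 0 h1 (fun i => Finset.single_le_sum (f := fun i => |h i|)
      (fun i _ => abs_nonneg _) (Finset.mem_univ i)) (by simp) x
  · refine Eventually.of_forall fun x => ?_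
    by_cases hx : x ∈ Pset θ h
    · have hval : ∀ k : ℕ, W (k : ℝ) θ h (0 : E n) x = 1 := by
        intro k
        have hU : Upot (k : ℝ) θ h x = 0 := by
          unfold Upot
          refine Finset.sum_eq_zero fun i _ => G0_nonpos ?_
          exact mul_nonpos_of_nonneg_of_nonpos (Nat.cast_nonneg k) (by have := hx i; linarith)
        unfold W wt Vpot
        rw [hU]; simp
      simp only [hval, Set.indicator_of_mem hx]
      exact tendsto_const_nhds
    · rw [Set.indicator_of_notMem hx]
      have hx' : ∃ i, h i < inner ℝ (θ i) x := by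
        by_contra hcon
        push Not at hcon
        exact hx hcon
      obtain ⟨i, hi⟩ := hx'
      have hs : 0 < inner ℝ (θ i) x - h i := by linarith
      have hG0pos : ∀ s, 0 ≤ G0 s := hSW0.2.2.2.2.2.1
      have hcub : ∀ s, 0 ≤ s → s ^ 3 / 6 ≤ G0 s := hSW0.2.2.2.2.2.2.2.2.2.1
      have hbd : ∀ k : ℕ, W (k : ℝ) θ h (0 : E n) x ≤
          Real.exp (-(((k : ℝ) * (inner ℝ (θ i) x - h i)) ^ 3 / 6)) := by
        intro k
        unfold W wt Vpot Upot
        refine Real.exp_le_exp.2 ?_
        have h1 : G0 ((k : ℝ) * (inner ℝ (θ i) x - h i)) ≤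
            ∑ j, G0 ((k : ℝ) * (inner ℝ (θ j) x - h j)) :=
          Finset.single_le_sum (f := fun j => G0 ((k : ℝ) * (inner ℝ (θ j) x - h j)))
            (fun j _ => hG0pos _) (Finset.mem_univ i)
        have h2 := hcub ((k : ℝ) * (inner ℝ (θ i) x - h i))
          (mul_nonneg (Nat.cast_nonneg k) hs.le)
        rw [inner_zero_left]
        linarith
      have htend : Tendsto (fun k : ℕ => Real.exp (-(((k : ℝ) * (inner ℝ (θ i) x - h i)) ^ 3 / 6)))
          atTop (𝓝 0) := by
        refine Real.tendsto_exp_neg_atTop_nhds_zero.comp ?_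
        have h3 : Tendsto (fun k : ℕ => (k : ℝ) * (inner ℝ (θ i) x - h i)) atTop atTop :=
          tendsto_natCast_atTop_atTop.atTop_mul_const hs
        have h4 := (tendsto_pow_atTop (α := ℝ) (n := 3) (by norm_num)).comp h3
        exact h4.atTop_div_const (by norm_num)
      exact tendsto_of_tendsto_of_tendsto_of_le_of_le tendsto_const_nhds htend
        (fun k => (Real.exp_pos _).le) hbd

end Pool.Agent.Work.LPBM.helper69
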