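import Pool.Agent.Work.MP_b5407d_lp_helper69.LIM

set_option autoImplicit false
open MeasureTheory Real Filter Topology
open scoped ContDiff

namespace Pool.Agent.Work.LPBM.helper69

/-- second derivative test -/
theorem second_test {Φ Φ1 : ℝ → ℝ} {D r : ℝ} (hr : 0 < r)
    (h1 : ∀ s, |s| < r → HasDerivAt Φ (Φ1 s) s)
    (h2 : HasDerivAt Φ1 D 0) (hmin : ∀ s, |s| < r → Φ 0 ≤ Φ s) : 0 ≤ D := by
  by_contra hD
  push Not at hD
  have hball : Metric.ball (0 : ℝ) r ∈ 𝓝 (0 : ℝ) := Metric.ball_mem_nhds 0 hr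
  have hloc : IsLocalMin Φ 0 := by
    filter_upwards [hball] with s hs
    exact hmin s (by simpa [Real.dist_eq] using hs)
  have hev : deriv Φ =ᶠ[𝓝 0] Φ1 := by
    filter_upwards [hball] with s hs
    exact (h1 s (by simpa [Real.dist_eq] using hs)).deriv
  have hd0 : deriv Φ 0 = 0 := hloc.deriv_eq_zero
  have hdd : deriv (deriv Φ) 0 = D := by rw [hev.deriv_eq]; exact h2.deriv
  have hmax : IsLocalMax Φ 0 := isLocalMax_of_deriv_deriv_neg (by rw [hdd]; exact hD) hd0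
    (h1 0 (by simpa using hr)).continuousAt
  have hconst : Φ =ᶠ[𝓝 0] fun _ => Φ 0 := by
    filter_upwards [hloc, hmax] with s h1 h2
    exact le_antisymm h2 h1
  have hd1 : deriv Φ =ᶠ[𝓝 0] fun _ => (0 : ℝ) := by
    have := hconst.deriv
    refine this.trans ?_
    exact Eventually.of_forall fun s => by simp
  have : deriv (deriv Φ) 0 = 0 := by rw [hd1.deriv_eq]; simp
  rw [hdd] at this
  linarith

theorem continuous_G1 (hSW0 : Stmt_SW0) : Continuous G1 :=
  continuous_iff_continuousAt.2 fun s => (hSW0.2.1 s).continuousAt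

section
variable {n : ℕ} {ι : Type} [Fintype ι]

/-- the sum of the second derivatives -/
noncomputable def Gs (k : ℝ) (θ : ι → E n) (h : ι → ℝ) (x : E n) : ℝ :=
  1 + ∑ i, G2 (k * (inner ℝ (θ i) x - h i))

theorem G2_nonneg (hSW0 : Stmt_SW0) (s : ℝ) : 0 ≤ G2 s :=
  (hSW0.2.2.2.2.2.2.1 s).trans (hSW0.2.2.2.2.2.2.2.1 s)

theorem one_le_Gs (hSW0 : Stmt_SW0) (k : ℝ) (θ : ι → E n) (h : ι → ℝ) (x : E n) :
    1 ≤ Gs k θ h x := by
  unfold Gs
  have : 0 ≤ ∑ i, G2 (k * (inner ℝ (θ i) x - h i)) := Finset.sum_nonneg fun i _ => G2_nonneg hSW0 _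
  linarith

theorem G2_le_Gs (hSW0 : Stmt_SW0) (k : ℝ) (θ : ι → E n) (h : ι → ℝ) (x : E n) (i : ι) :
    G2 (k * (inner ℝ (θ i) x - h i)) ≤ Gs k θ h x := by
  unfold Gs
  have : G2 (k * (inner ℝ (θ i) x - h i)) ≤ ∑ i, G2 (k * (inner ℝ (θ i) x - h i)) :=
    Finset.single_le_sum (f := fun i => G2 (k * (inner ℝ (θ i) x - h i)))
      (fun i _ => G2_nonneg hSW0 _) (Finset.mem_univ i)
  linarith

/-- integrability from a bound -/
theorem integrable_of_bound (hSW0 : Stmt_SW0) (hINT : Stmt_INT) {k : ℝ} (hk : 0 < k) {θ : ι → E n}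
    (hSp : Span θ) (h : ι → ℝ) (l : E n) {g : E n → ℝ} (hg : Continuous g) {C : ℝ} (hC : 0 ≤ C)
    (hb : ∀ x, |g x| ≤ C * (exp (2 * ‖x‖) * Gs k θ h x ^ 2)) :
    Integrable (fun x => g x * W k θ h l x) := by
  obtain ⟨B, hBi, hB⟩ := hINT n ι θ hSp k k (∑ i, |h i|) (max ‖l‖ 2) hk 2
  refine (hBi.const_mul C).mono' ((hg.mul (continuous_W hSW0 k θ h l)).aestronglyMeasurable)
    (Eventually.of_forall fun x => ?_)
  have hBx := hB k h l le_rfl le_rfl (fun i => Finset.single_le_sum (f := fun i => |h i|)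
      (fun i _ => abs_nonneg _) (Finset.mem_univ i)) (le_max_left _ _) x
  have hW : 0 ≤ W k θ h l x := (Real.exp_pos _).le
  rw [Real.norm_eq_abs, abs_mul, abs_of_nonneg hW]
  calc |g x| * W k θ h l x ≤ C * (exp (2 * ‖x‖) * Gs k θ h x ^ 2) * W k θ h l x :=
        mul_le_mul_of_nonneg_right (hb x) hW
    _ ≤ C * (exp (max ‖l‖ 2 * ‖x‖) * Gs k θ h x ^ 2) * W k θ h l x := by
        refine mul_le_mul_of_nonneg_right (mul_le_mul_of_nonneg_left ?_ hC) hW
        refine mul_le_mul_of_nonneg_right ?_ (sq_nonneg _)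
        exact Real.exp_le_exp.2 (mul_le_mul_of_nonneg_right (le_max_right _ _) (norm_nonneg _))
    _ ≤ C * B x := by
        have := mul_le_mul_of_nonneg_left hBx hC
        calc _ = C * (exp (max ‖l‖ 2 * ‖x‖) * Gs k θ h x ^ 2 * W k θ h l x) := by ring
          _ ≤ C * B x := this

theorem one_le_E2 (hSW0 : Stmt_SW0) (k : ℝ) (θ : ι → E n) (h : ι → ℝ) (x : E n) :
    1 ≤ exp (2 * ‖x‖) * Gs k θ h x ^ 2 := by
  have h1 := one_le_Gs hSW0 k θ h x
  have h2 : 1 ≤ exp (2 * ‖x‖) := Real.one_le_exp (by positivity)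
  have h3 : 1 ≤ Gs k θ h x ^ 2 := one_le_pow₀ h1
  nlinarith

theorem Gs_le_E2 (hSW0 : Stmt_SW0) (k : ℝ) (θ : ι → E n) (h : ι → ℝ) (x : E n) :
    Gs k θ h x ≤ exp (2 * ‖x‖) * Gs k θ h x ^ 2 := by
  have h1 := one_le_Gs hSW0 k θ h x
  have h2 : 1 ≤ exp (2 * ‖x‖) := Real.one_le_exp (by positivity)
  have h3 : Gs k θ h x ≤ Gs k θ h x ^ 2 := by nlinarith
  nlinarith [sq_nonneg (Gs k θ h x)]

theorem integrable_W (hSW0 : Stmt_SW0) (hINT : Stmt_INT) {k : ℝ} (hk : 0 < k) {θ : ι → E n}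
    (hSp : Span θ) (h : ι → ℝ) (l : E n) : Integrable (W k θ h l) := by
  have := integrable_of_bound hSW0 hINT hk hSp h l (g := fun _ => (1 : ℝ)) continuous_const
    (C := 1) zero_le_one (fun x => by rw [abs_one, one_mul]; exact one_le_E2 hSW0 k θ h x)
  simpa using this

theorem J_pos (hSW0 : Stmt_SW0) (hINT : Stmt_INT) {k : ℝ} (hk : 0 < k) {θ : ι → E n}
    (hSp : Span θ) (h : ι → ℝ) (l : E n) : 0 < J k θ h l := by
  unfold J
  have hnn : 0 ≤ W k θ h l := fun x => (Real.exp_pos _).le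
  rw [integral_pos_iff_support_of_nonneg hnn (integrable_W hSW0 hINT hk hSp h l)]
  have : Function.support (W k θ h l) = Set.univ := by
    ext x
    simp only [Function.mem_support, Set.mem_univ, iff_true]
    exact (Real.exp_pos _).ne'
  rw [this]
  exact isOpen_univ.measure_pos _ Set.univ_nonempty

omit [Fintype ι] in
theorem continuous_arg (k : ℝ) (θ : ι → E n) (h : ι → ℝ) (i : ι) :
    Continuous fun x : E n => k * (inner ℝ (θ i) x - h i) :=
  continuous_const.mul ((continuous_const.inner continuous_id).sub continuous_const)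

theorem continuous_Yf (hSW0 : Stmt_SW0) (k : ℝ) (θ : ι → E n) (h f : ι → ℝ) (η : E n) :
    Continuous (Yf k θ h f η) := by
  have hG := continuous_G1 hSW0
  unfold Yf
  refine Continuous.add (continuous_const.inner continuous_id) ?_
  exact continuous_finsetSum _ fun i _ =>
    (continuous_const.mul (hG.comp (continuous_arg k θ h i))).mul continuous_const

/-- bound for `Yf` -/
theorem abs_Yf_le (hSW0 : Stmt_SW0) {k : ℝ} (hk : 0 < k) (θ : ι → E n) (h f : ι → ℝ) (η x : E n) :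
    |Yf k θ h f η x| ≤ (‖η‖ + k * ∑ i, |f i|) * (exp ‖x‖ * Gs k θ h x) := by
  have hGs := one_le_Gs hSW0 k θ h x
  have hex : 1 ≤ exp ‖x‖ := Real.one_le_exp (norm_nonneg _)
  have hxe : ‖x‖ ≤ exp ‖x‖ := by linarith [Real.add_one_le_exp ‖x‖]
  have hprod : exp ‖x‖ ≤ exp ‖x‖ * Gs k θ h x := by nlinarith
  have hprod2 : Gs k θ h x ≤ exp ‖x‖ * Gs k θ h x := by nlinarith
  unfold Yf
  have h1 : |inner ℝ η x| ≤ ‖η‖ * (exp ‖x‖ * Gs k θ h x) :=
    (abs_real_inner_le_norm η x).trans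
      (mul_le_mul_of_nonneg_left (hxe.trans hprod) (norm_nonneg _))
  have h2 : |∑ i, k * G1 (k * (inner ℝ (θ i) x - h i)) * f i| ≤
      (k * ∑ i, |f i|) * (exp ‖x‖ * Gs k θ h x) := by
    calc |∑ i, k * G1 (k * (inner ℝ (θ i) x - h i)) * f i|
        ≤ ∑ i, |k * G1 (k * (inner ℝ (θ i) x - h i)) * f i| := Finset.abs_sum_le_sum_abs _ _
      _ ≤ ∑ i, k * |f i| * (exp ‖x‖ * Gs k θ h x) := by
          refine Finset.sum_le_sum fun i _ => ?_
          have hG1 : 0 ≤ G1 (k * (inner ℝ (θ i) x - h i)) := hSW0.2.2.2.2.2.2.1 _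
          have hG1' : G1 (k * (inner ℝ (θ i) x - h i)) ≤ exp ‖x‖ * Gs k θ h x :=
            ((hSW0.2.2.2.2.2.2.2.1 _).trans (G2_le_Gs hSW0 k θ h x i)).trans hprod2
          rw [abs_mul, abs_mul, abs_of_pos hk, abs_of_nonneg hG1]
          have : k * G1 (k * (inner ℝ (θ i) x - h i)) * |f i| =
              k * |f i| * G1 (k * (inner ℝ (θ i) x - h i)) := by ring
          rw [this]
          exact mul_le_mul_of_nonneg_left hG1' (mul_nonneg hk.le (abs_nonneg _))
      _ = (k * ∑ i, |f i|) * (exp ‖x‖ * Gs k θ h x) := by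
          rw [Finset.mul_sum, Finset.sum_mul]
  calc _ ≤ |inner ℝ η x| + |∑ i, k * G1 (k * (inner ℝ (θ i) x - h i)) * f i| := abs_add_le _ _
    _ ≤ _ := by rw [add_mul]; exact add_le_add h1 h2

theorem sq_E1 (k : ℝ) (θ : ι → E n) (h : ι → ℝ) (x : E n) :
    (exp ‖x‖ * Gs k θ h x) ^ 2 = exp (2 * ‖x‖) * Gs k θ h x ^ 2 := by
  rw [mul_pow, ← Real.exp_nat_mul]; push_cast; ring_nf

theorem E1_le_E2 (hSW0 : Stmt_SW0) (k : ℝ) (θ : ι → E n) (h : ι → ℝ) (x : E n) :
    exp ‖x‖ * Gs k θ h x ≤ exp (2 * ‖x‖) * Gs k θ h x ^ 2 := by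
  rw [← sq_E1]
  have h1 := one_le_Gs hSW0 k θ h x
  have hex : 1 ≤ exp ‖x‖ := Real.one_le_exp (norm_nonneg _)
  have : 1 ≤ exp ‖x‖ * Gs k θ h x := by nlinarith
  nlinarith

theorem integrable_Y (hSW0 : Stmt_SW0) (hINT : Stmt_INT) {k : ℝ} (hk : 0 < k) {θ : ι → E n}
    (hSp : Span θ) (h f : ι → ℝ) (l η : E n) :
    Integrable (fun x => Yf k θ h f η x * W k θ h l x) := by
  have hC : 0 ≤ ‖η‖ + k * ∑ i, |f i| :=
    add_nonneg (norm_nonneg _) (mul_nonneg hk.le (Finset.sum_nonneg fun i _ => abs_nonneg _))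
  refine integrable_of_bound hSW0 hINT hk hSp h l (continuous_Yf hSW0 k θ h f η) hC fun x => ?_
  exact (abs_Yf_le hSW0 hk θ h f η x).trans (mul_le_mul_of_nonneg_left (E1_le_E2 hSW0 k θ h x) hC)

theorem integrable_Y2 (hSW0 : Stmt_SW0) (hINT : Stmt_INT) {k : ℝ} (hk : 0 < k) {θ : ι → E n}
    (hSp : Span θ) (h f : ι → ℝ) (l η : E n) :
    Integrable (fun x => Yf k θ h f η x ^ 2 * W k θ h l x) := by
  have hC : 0 ≤ ‖η‖ + k * ∑ i, |f i| :=
    add_nonneg (norm_nonneg _) (mul_nonneg hk.le (Finset.sum_nonneg fun i _ => abs_nonneg _))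
  refine integrable_of_bound hSW0 hINT hk hSp h l ((continuous_Yf hSW0 k θ h f η).pow 2)
    (sq_nonneg (‖η‖ + k * ∑ i, |f i|)) fun x => ?_
  rw [abs_pow, ← sq_E1, ← mul_pow]
  exact pow_le_pow_left₀ (abs_nonneg _) (abs_Yf_le hSW0 hk θ h f η x) 2

/-- a weighted sum of `G2` is integrable -/
theorem integrable_G2 (hSW0 : Stmt_SW0) (hINT : Stmt_INT) {k : ℝ} (hk : 0 < k) {θ : ι → E n}
    (hSp : Span θ) (h c : ι → ℝ) (l : E n) :
    Integrable (fun x => (∑ i, k ^ 2 * G2 (k * (inner ℝ (θ i) x - h i)) * c i) * W k θ h l x) := by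
  have hC : 0 ≤ k ^ 2 * ∑ i, |c i| :=
    mul_nonneg (sq_nonneg k) (Finset.sum_nonneg fun i _ => abs_nonneg _)
  refine integrable_of_bound hSW0 hINT hk hSp h l ?_ hC fun x => ?_
  · exact continuous_finsetSum _ fun i _ =>
      (continuous_const.mul (hSW0.2.2.1.comp (continuous_arg k θ h i))).mul continuous_const
  · calc |∑ i, k ^ 2 * G2 (k * (inner ℝ (θ i) x - h i)) * c i|
        ≤ ∑ i, |k ^ 2 * G2 (k * (inner ℝ (θ i) x - h i)) * c i| := Finset.abs_sum_le_sum_abs _ _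
      _ ≤ ∑ i, k ^ 2 * |c i| * (exp (2 * ‖x‖) * Gs k θ h x ^ 2) := by
          refine Finset.sum_le_sum fun i _ => ?_
          have hG : 0 ≤ G2 (k * (inner ℝ (θ i) x - h i)) := G2_nonneg hSW0 _
          have hG' : G2 (k * (inner ℝ (θ i) x - h i)) ≤ exp (2 * ‖x‖) * Gs k θ h x ^ 2 :=
            (G2_le_Gs hSW0 k θ h x i).trans (Gs_le_E2 hSW0 k θ h x)
          rw [abs_mul, abs_mul, abs_of_nonneg (sq_nonneg k), abs_of_nonneg hG]
          have : k ^ 2 * G2 (k * (inner ℝ (θ i) x - h i)) * |c i| =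
              k ^ 2 * |c i| * G2 (k * (inner ℝ (θ i) x - h i)) := by ring
          rw [this]
          exact mul_le_mul_of_nonneg_left hG' (mul_nonneg (sq_nonneg k) (abs_nonneg _))
      _ = _ := by rw [Finset.mul_sum, Finset.sum_mul]

/-- a weighted sum of `G1` is integrable -/
theorem integrable_G1 (hSW0 : Stmt_SW0) (hINT : Stmt_INT) {k : ℝ} (hk : 0 < k) {θ : ι → E n}
    (hSp : Span θ) (h c : ι → ℝ) (l : E n) :
    Integrable (fun x => (∑ i, k * G1 (k * (inner ℝ (θ i) x - h i)) * c i) * W k θ h l x) := by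
  have := integrable_Y hSW0 hINT hk hSp h c l 0
  unfold Yf at this
  simpa using this

/-- the variance identity -/
theorem LI_eq (hSW0 : Stmt_SW0) (hINT : Stmt_INT) {k : ℝ} (hk : 0 < k) {θ : ι → E n}
    (hSp : Span θ) (p : ℝ) (h f g2 : ι → ℝ) (l η : E n) (hg2 : ∀ i, g2 i = (1 - p) * (f i ^ 2 / h i)) :
    LI p k θ h l f η =
      (∫ x, ((Yf k θ h f η x) ^ 2 - ∑ i, k ^ 2 * G2 (k * (inner ℝ (θ i) x - h i)) * (f i) ^ 2
          + ∑ i, k * G1 (k * (inner ℝ (θ i) x - h i)) * g2 i) * W k θ h l x) / J k θ h l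
        - ((∫ x, Yf k θ h f η x * W k θ h l x) / J k θ h l) ^ 2 := by
  have hJ := J_pos hSW0 hINT hk hSp h l
  have hmean : mean (Vpot k θ h l) (Yf k θ h f η) =
      (∫ x, Yf k θ h f η x * W k θ h l x) / J k θ h l := rfl
  set m : ℝ := (∫ x, Yf k θ h f η x * W k θ h l x) / J k θ h l with hm
  have hI1 : ∫ x, Yf k θ h f η x * W k θ h l x = m * J k θ h l := by
    rw [hm]; field_simp
  unfold LI
  rw [hmean]
  have hint : ∀ x, ((Yf k θ h f η x - m) ^ 2
      - ∑ i, k ^ 2 * G2 (k * (inner ℝ (θ i) x - h i)) * f i ^ 2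
      + (1 - p) * ∑ i, k * G1 (k * (inner ℝ (θ i) x - h i)) * (f i ^ 2 / h i)) * W k θ h l x =
      (((Yf k θ h f η x) ^ 2 - ∑ i, k ^ 2 * G2 (k * (inner ℝ (θ i) x - h i)) * (f i) ^ 2
          + ∑ i, k * G1 (k * (inner ℝ (θ i) x - h i)) * g2 i) * W k θ h l x)
        - 2 * m * (Yf k θ h f η x * W k θ h l x) + m ^ 2 * W k θ h l x := by
    intro x
    have : (1 - p) * ∑ i, k * G1 (k * (inner ℝ (θ i) x - h i)) * (f i ^ 2 / h i) =
        ∑ i, k * G1 (k * (inner ℝ (θ i) x - h i)) * g2 i := by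
      rw [Finset.mul_sum]
      refine Finset.sum_congr rfl fun i _ => ?_
      rw [hg2 i]; ring
    rw [this]; ring
  have hintA : Integrable (fun x => ((Yf k θ h f η x) ^ 2
      - ∑ i, k ^ 2 * G2 (k * (inner ℝ (θ i) x - h i)) * (f i) ^ 2
          + ∑ i, k * G1 (k * (inner ℝ (θ i) x - h i)) * g2 i) * W k θ h l x) := by
    have h1 := integrable_Y2 hSW0 hINT hk hSp h f l η
    have h2 := integrable_G2 hSW0 hINT hk hSp h (fun i => f i ^ 2) l
    have h3 := integrable_G1 hSW0 hINT hk hSp h g2 l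
    refine ((h1.sub h2).add h3).congr (Eventually.of_forall fun x => ?_)
    simp only [Pi.add_apply, Pi.sub_apply]
    ring
  have hintB := integrable_Y hSW0 hINT hk hSp h f l η
  have hintC := integrable_W hSW0 hINT hk hSp h l
  have hcalc : ∫ x, ((Yf k θ h f η x - m) ^ 2
      - ∑ i, k ^ 2 * G2 (k * (inner ℝ (θ i) x - h i)) * f i ^ 2
      + (1 - p) * ∑ i, k * G1 (k * (inner ℝ (θ i) x - h i)) * (f i ^ 2 / h i)) * W k θ h l x =
      (∫ x, ((Yf k θ h f η x) ^ 2 - ∑ i, k ^ 2 * G2 (k * (inner ℝ (θ i) x - h i)) * (f i) ^ 2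
          + ∑ i, k * G1 (k * (inner ℝ (θ i) x - h i)) * g2 i) * W k θ h l x)
        - 2 * m * (∫ x, Yf k θ h f η x * W k θ h l x) + m ^ 2 * J k θ h l := by
    have hintAB : Integrable (fun x => ((Yf k θ h f η x) ^ 2
      - ∑ i, k ^ 2 * G2 (k * (inner ℝ (θ i) x - h i)) * (f i) ^ 2
          + ∑ i, k * G1 (k * (inner ℝ (θ i) x - h i)) * g2 i) * W k θ h l x
          - 2 * m * (Yf k θ h f η x * W k θ h l x)) := hintA.sub (hintB.const_mul (2 * m))
    rw [integral_congr_ae (Eventually.of_forall hint), integral_add hintAB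
      (hintC.const_mul (m ^ 2)), integral_sub hintA (hintB.const_mul (2 * m)), integral_const_mul,
      integral_const_mul]
    rfl
  rw [hcalc, hI1]
  have : (∫ x, W k θ h l x) = J k θ h l := rfl
  rw [this]
  field_simp
  ring

end

/-- the soft version of the path argument -/
theorem stmt_PTH (hSW0 : Stmt_SW0) (hINT : Stmt_INT) (hDIF : Stmt_DIF) (hMIN : Stmt_MIN) :
    Stmt_PTH := by
  intro n ι _ p k θ a b A0 A1 hp0 hp1 hk hSp ha hb hA0 hA1 hloc t1 ht1 l1
  by_contra hcon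
  push Not at hcon
  set δ : ℝ := (1 - t1) * A0 + t1 * A1 - log (J k θ (ht p a b t1) l1) with hδ
  have hδpos : 0 < δ := by rw [hδ]; linarith
  -- positivity of the affine function
  have hS : ∀ t ∈ Set.Icc (0 : ℝ) 1, ∀ i, 0 < (1 - t) * a i ^ p + t * b i ^ p := by
    intro t ht i
    have h1 : 0 < a i ^ p := Real.rpow_pos_of_pos (ha i) p
    have h2 : 0 < b i ^ p := Real.rpow_pos_of_pos (hb i) p
    rcases eq_or_lt_of_le ht.1 with h0 | h0
    · rw [← h0]; simpa using h1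
    · have : 0 ≤ (1 - t) * a i ^ p := mul_nonneg (by linarith [ht.2]) h1.le
      have : 0 < t * b i ^ p := mul_pos h0 h2
      linarith
  have hpos : ∀ t ∈ Set.Icc (0 : ℝ) 1, ∀ i, 0 < ht p a b t i := fun t ht i =>
    Real.rpow_pos_of_pos (hS t ht i) _
  have hcontht : ∀ i, ContinuousOn (fun t => ht p a b t i) (Set.Icc 0 1) := by
    intro i
    unfold ht mp
    refine ContinuousOn.rpow_const ?_ fun t ht => Or.inl (hS t ht i).ne'
    fun_prop
  have hcontc : ContinuousOn (fun t : ℝ => -(1 - t) * A0 - t * A1 + δ * (t * (1 - t))) (Set.Icc 0 1) := by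
    fun_prop
  obtain ⟨t0, ht0, l0, hmin⟩ := hMIN n ι k θ hk hSp (fun t => ht p a b t)
    (fun t => -(1 - t) * A0 - t * A1 + δ * (t * (1 - t))) hcontht hpos hcontc
  -- the minimum is negative
  have hneg : log (J k θ (ht p a b t0) l0) + (-(1 - t0) * A0 - t0 * A1 + δ * (t0 * (1 - t0))) < 0 := by
    have h1 := hmin t1 ht1 l1
    have h2 : t1 * (1 - t1) < 1 := by nlinarith [ht1.1, ht1.2, sq_nonneg (t1 - 1 / 2)]
    have h3 : δ * (t1 * (1 - t1)) < δ := by nlinarith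
    rw [hδ] at h3 h1 ⊢
    linarith
  have hmp0 : ht p a b 0 = a := by
    funext i
    unfold ht mp
    rw [sub_zero, one_mul, zero_mul, add_zero, ← Real.rpow_mul (ha i).le,
      mul_one_div_cancel hp0.ne', Real.rpow_one]
  have hmp1 : ht p a b 1 = b := by
    funext i
    unfold ht mp
    rw [sub_self, one_mul, zero_mul, zero_add, ← Real.rpow_mul (hb i).le,
      mul_one_div_cancel hp0.ne', Real.rpow_one]
  have ht0' : t0 ∈ Set.Ioo (0 : ℝ) 1 := by
    refine ⟨lt_of_le_of_ne ht0.1 fun h0 => ?_, lt_of_le_of_ne ht0.2 fun h0 => ?_⟩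
    · rw [← h0, hmp0] at hneg
      have := hA0 l0
      linarith
    · rw [h0, hmp1] at hneg
      have := hA1 l0
      linarith
  have hJ0 : 0 < J k θ (ht p a b t0) l0 := J_pos hSW0 hINT hk hSp _ _
  -- centring
  have hcen : ∀ j : Fin n, ∫ x : E n, x j * W k θ (ht p a b t0) l0 x = 0 := by
    intro j
    obtain ⟨I1, hI1, hI10, -⟩ := hDIF n ι k θ hk hSp (fun _ => ht p a b t0) (fun _ _ => 0)
      (fun _ _ => 0) l0 (EuclideanSpace.single j (1 : ℝ)) 1 one_pos
      (fun s _ i => hasDerivAt_const s (ht p a b t0 i)) (fun s _ i => hasDerivAt_const s (0 : ℝ))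
      (fun i => continuousOn_const)
    have hd := hI1 0 (by simp)
    have hJ0' : J k θ (ht p a b t0) (l0 + (0 : ℝ) • EuclideanSpace.single j (1 : ℝ)) ≠ 0 := by
      rw [zero_smul, add_zero]; exact hJ0.ne'
    have hlog := hd.log hJ0'
    have hlm : IsLocalMin (fun s : ℝ => log (J k θ (ht p a b t0)
        (l0 + s • EuclideanSpace.single j (1 : ℝ)))) 0 := by
      refine Eventually.of_forall fun s => ?_
      have h1 := hmin t0 ht0 (l0 + s • EuclideanSpace.single j (1 : ℝ))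
      simp only [zero_smul, add_zero]
      linarith
    have h0 := hlm.hasDerivAt_eq_zero hlog
    have h1 : I1 0 = 0 := by
      rcases div_eq_zero_iff.1 h0 with h | h
      · exact h
      · exact absurd h hJ0'
    rw [hI10] at h1
    rw [← h1]
    refine integral_congr_ae (Eventually.of_forall fun x => ?_)
    simp only [Yf, mul_zero, Finset.sum_const_zero, add_zero]
    congr 1
    rw [EuclideanSpace.inner_single_left]
    simp
  -- the derivatives of the path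
  set D : ι → ℝ := fun i => b i ^ p - a i ^ p with hD
  set S : ℝ → ι → ℝ := fun t i => (1 - t) * a i ^ p + t * b i ^ p with hSdef
  set r : ℝ := min t0 (1 - t0) with hr
  have hrpos : 0 < r := lt_min ht0'.1 (by linarith [ht0'.2])
  have hin : ∀ s : ℝ, |s| < r → t0 + s ∈ Set.Icc (0 : ℝ) 1 := by
    intro s hs
    have h1 := (abs_lt.1 hs).1
    have h2 := (abs_lt.1 hs).2
    have h3 : r ≤ t0 := min_le_left _ _
    have h4 : r ≤ 1 - t0 := min_le_right _ _
    exact ⟨by linarith, by linarith⟩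
  have hSd : ∀ (s : ℝ) (i : ι), HasDerivAt (fun s => S (t0 + s) i) (D i) s := by
    intro s i
    have h1 : HasDerivAt (fun s : ℝ => t0 + s) 1 s := (hasDerivAt_id s).const_add t0
    have h2 : HasDerivAt (fun s : ℝ => (1 - (t0 + s)) * a i ^ p + (t0 + s) * b i ^ p)
        (-1 * a i ^ p + 1 * b i ^ p) s :=
      ((h1.const_sub 1).mul_const _).add (h1.mul_const _)
    refine h2.congr_deriv ?_
    rw [hD]; ring
  set h1 : ℝ → ι → ℝ := fun s i => D i * (1 / p) * S (t0 + s) i ^ (1 / p - 1) with hh1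
  set h2 : ℝ → ι → ℝ := fun s i => D i * (1 / p) * (D i * (1 / p - 1) * S (t0 + s) i ^ (1 / p - 1 - 1))
    with hh2
  have hderiv1 : ∀ s, |s| < r → ∀ i, HasDerivAt (fun s => ht p a b (t0 + s) i) (h1 s i) s := by
    intro s hs i
    exact (hSd s i).rpow_const (Or.inl (hS (t0 + s) (hin s hs) i).ne')
  have hderiv2 : ∀ s, |s| < r → ∀ i, HasDerivAt (fun s => h1 s i) (h2 s i) s := by
    intro s hs i
    exact ((hSd s i).rpow_const (p := 1 / p - 1)
      (Or.inl (hS (t0 + s) (hin s hs) i).ne')).const_mul (D i * (1 / p))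
  have hcont2 : ∀ i, ContinuousOn (fun s => h2 s i) (Set.Ioo (-r) r) := by
    intro i
    have hc : ContinuousOn (fun s => S (t0 + s) i) (Set.Ioo (-r) r) :=
      fun s _ => (hSd s i).continuousAt.continuousWithinAt
    refine ContinuousOn.mul continuousOn_const (ContinuousOn.mul continuousOn_const ?_)
    exact hc.rpow_const fun s hs => Or.inl (hS (t0 + s) (hin s (abs_lt.2 hs)) i).ne'
  obtain ⟨η, hη⟩ := hloc t0 ht0' l0 hcen (h1 0) δ hδpos
  obtain ⟨I1, hI1, hI10, hI2⟩ := hDIF n ι k θ hk hSp (fun s => ht p a b (t0 + s)) h1 h2 l0 η r hrpos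
    hderiv1 hderiv2 hcont2
  -- relation of the derivatives
  have hrel : ∀ i, h2 0 i = (1 - p) * ((h1 0 i) ^ 2 / ht p a b t0 i) := by
    intro i
    have hSp0 : 0 < S t0 i := hS t0 ht0 i
    have e1 : ht p a b t0 i = S t0 i ^ (1 / p) := rfl
    rw [e1]
    simp only [hh1, hh2, add_zero]
    have e2 : (S t0 i ^ (1 / p - 1)) ^ 2 = S t0 i ^ (1 / p - 1 - 1) * S t0 i ^ (1 / p) := by
      rw [sq, ← Real.rpow_add hSp0, ← Real.rpow_add hSp0]
      congr 1; ring
    have e3 : S t0 i ^ (1 / p) ≠ 0 := (Real.rpow_pos_of_pos hSp0 _).ne'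
    rw [mul_pow, e2]
    field_simp
  have hLI := LI_eq hSW0 hINT hk hSp p (ht p a b t0) (h1 0) (h2 0) l0 η hrel
  simp only [add_zero] at hI10 hI2
  set I2 : ℝ := ∫ x, ((Yf k θ (ht p a b t0) (h1 0) η x) ^ 2
      - ∑ i, k ^ 2 * G2 (k * (inner ℝ (θ i) x - ht p a b t0 i)) * (h1 0 i) ^ 2
      + ∑ i, k * G1 (k * (inner ℝ (θ i) x - ht p a b t0 i)) * h2 0 i) * W k θ (ht p a b t0) l0 x with hI2def
  set F : ℝ → ℝ := fun s => J k θ (ht p a b (t0 + s)) (l0 + s • η) with hF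
  have hFpos : ∀ s, 0 < F s := fun s => J_pos hSW0 hINT hk hSp _ _
  have hF0 : F 0 = J k θ (ht p a b t0) l0 := by rw [hF]; simp
  have hFd : ∀ s, |s| < r → HasDerivAt F (I1 s) s := hI1
  -- second derivative test
  have htest := second_test (Φ := fun s => log (F s) +
      (-(1 - (t0 + s)) * A0 - (t0 + s) * A1 + δ * ((t0 + s) * (1 - (t0 + s)))))
    (Φ1 := fun s => I1 s / F s + (A0 - A1 + δ * (1 - 2 * (t0 + s))))
    (D := (I2 * F 0 - I1 0 * I1 0) / F 0 ^ 2 + -(2 * δ)) (r := r) hrpos ?_ ?_ ?_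
  · have hFne : F 0 ≠ 0 := (hFpos 0).ne'
    have e1 : (I2 * F 0 - I1 0 * I1 0) / F 0 ^ 2 = I2 / F 0 - (I1 0 / F 0) ^ 2 := by
      field_simp
    rw [e1, hF0] at htest
    rw [hI10] at htest
    rw [← hLI] at htest
    linarith
  · intro s hs
    have e1 := (hFd s hs).log (hFpos s).ne'
    have e2 : HasDerivAt (fun s : ℝ => t0 + s) 1 s := (hasDerivAt_id s).const_add t0
    have e3 := (((e2.const_sub 1).neg.mul_const A0).sub (e2.mul_const A1)).add
      ((e2.mul (e2.const_sub 1)).const_mul δ)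
    have e4 := e1.add e3
    refine e4.congr_deriv ?_
    ring
  · have e1 := hI2.div (hFd 0 (by simpa using hrpos)) (hFpos 0).ne'
    have e2 : HasDerivAt (fun s : ℝ => t0 + s) 1 0 := (hasDerivAt_id (0 : ℝ)).const_add t0
    have e3 := (((e2.const_mul 2).const_sub 1).const_mul δ).const_add (A0 - A1)
    have e4 := e1.add e3
    refine e4.congr_deriv ?_
    ring
  · intro s hs
    have e1 := hmin (t0 + s) (hin s hs) (l0 + s • η)
    simp only [hF, add_zero, zero_smul]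
    exact e1

end Pool.Agent.Work.LPBM.helper69
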